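import Pool.Agent.K4H92.EQ.Core

/-!
# When is `𝔟_b^eq < 𝔟`?

The definitions are in `Pool/Agent/K4H92/EQ/Core.lean` (`P`, `Sq`, `bEq`, `bounding`, `eNum`).

In the Laver model the number `𝔢_b = eNum b` is `ℵ₁ < 𝔟 = ℵ₂` if `b(n) → ∞`: by the Laver property
every `h ∈ ∏ b` is captured by a slalom of the ground model which leaves room in each `b(n)`, hence
`h` is everywhere different, from some point on, from a function of the ground model.
-/

set_option autoImplicit false

open Cardinal

namespace Pool.Agent.Results.MP_b3eba0_lc.BelowBounding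

open Pool.Agent.K4H92.EQ

/-- Let `b(n) ≥ 2` for all `n` and let `𝔢_b` be the least size of a set `F ⊆ ∏ b` such that every
`h ∈ ∏ b` is eventually different from some `f ∈ F`. Then `𝔟_b^eq ≤ 𝔢_b`, `𝔟_b^eq < 𝔟` if and only if
`𝔢_b < 𝔟`, and in this case `𝔟_b^eq = 𝔢_b`. -/
theorem result (b : ℕ → ℕ) (hb : ∀ n, 2 ≤ b n) :
    bEq b ≤ eNum b ∧ (bEq b < bounding ↔ eNum b < bounding) ∧
      (bEq b < bounding → bEq b = eNum b) := by
  have h1 := bEq_le_eNum hb
  have h2 := min_le_bEq hb
  have h3 : bEq b < bounding → bEq b = eNum b := by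
    intro h
    rcases min_le_iff.1 h2 with h4 | h4
    · exact absurd h (not_lt.2 h4)
    · exact le_antisymm h1 h4
  exact ⟨h1, ⟨fun h => h3 h ▸ h, fun h => h1.trans_lt h⟩, h3⟩

end Pool.Agent.Results.MP_b3eba0_lc.BelowBounding
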