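import Pool.Agent.K4H92.EQ.Core

/-!
# The ten-value chain of Q1 is impossible: `min {𝔟, cov(ℳ)} ≤ 𝔟_b^eq`

The definitions are in `Pool/Agent/K4H92/EQ/Core.lean` (`P`, `Sq`, `bEq`, `bounding`, `covM`).

Proof. Let `F ⊆ ∏ b` have fewer than `min {𝔟, cov(ℳ)}` elements. As `|F| < cov(ℳ)`, there is
`h ∈ ∏ b` which takes the same value as `f` infinitely often, for all `f ∈ F`. As `|F| < 𝔟`, there is an
interval partition such that for every `f ∈ F` almost all intervals contain a point where `f` and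
`h` are equal.
-/

set_option autoImplicit false

open Cardinal

namespace Pool.Agent.Results.MP_b3eba0_lc.ChainImpossible

open Pool.Agent.K4H92.EQ

/-- For all `b` with `b(n) ≥ 2` for all `n`: `min {𝔟, cov(ℳ)} ≤ 𝔟_b^eq`. Hence the chain in Q1 is
impossible, whatever the other seven cardinals in it are. -/
theorem result (b : ℕ → ℕ) (hb : ∀ n, 2 ≤ b n) :
    min bounding covM ≤ bEq b ∧
      ∀ addN covN nonE nonM dd nonN cofN : Cardinal.{0},
        ¬ (ℵ₁ < addN ∧ addN < covN ∧ covN < bEq b ∧ bEq b < bounding ∧ bounding < nonE ∧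
          nonE < nonM ∧ nonM < covM ∧ covM < dd ∧ dd < nonN ∧ nonN < cofN) := by
  have h1 : min bounding covM ≤ bEq b :=
    (min_le_min_left _ (covM_le_eNum hb)).trans (min_le_bEq hb)
  refine ⟨h1, ?_⟩
  rintro addN covN nonE nonM dd nonN cofN ⟨-, -, -, h2, h3, h4, h5, -, -, -⟩
  have h6 : bounding < covM := (h3.trans h4).trans h5
  rw [min_eq_left h6.le] at h1
  exact absurd h2 (not_lt.2 h1)

end Pool.Agent.Results.MP_b3eba0_lc.ChainImpossible
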